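import Mathlib

/-! Autocorrelation and diffraction of point sets on the line; counting lemmas. -/

namespace Pool.Agent.H.MP_23b0f8_an

open Finset Filter Topology MeasureTheory
open scoped SchwartzMap FourierTransform Classical

/-- `η` is the autocorrelation of `Λ`: the vague limit of the normalised pair-difference
measures of `Λ ∩ [-T, T]` -/
def IsAutocorr (Λ : Set ℝ) (η : Measure ℝ) : Prop :=
  IsFiniteMeasureOnCompacts η ∧ ∀ φ : ℝ → ℝ, Continuous φ → HasCompactSupport φ →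
    Tendsto (fun T : ℝ => (1 / (2 * T)) *
      ∑ᶠ x ∈ Λ ∩ Set.Icc (-T) T, ∑ᶠ y ∈ Λ ∩ Set.Icc (-T) T, φ (x - y)) atTop (𝓝 (∫ t, φ t ∂η))

/-- the positive measure `ν` is the Fourier transform of the measure `η` -/
def IsFT (η ν : Measure ℝ) : Prop :=
  ∀ φ : 𝓢(ℝ, ℂ), Integrable (𝓕 (φ : ℝ → ℂ)) η ∧ Integrable φ ν ∧
    ∫ t, 𝓕 (φ : ℝ → ℂ) t ∂η = ∫ s, φ s ∂ν

/-- the diffraction condition -/
def Diffr (Λ : Set ℝ) : Prop :=
  ∃ η ν : Measure ℝ, IsAutocorr Λ η ∧ IsFT η ν ∧
    {s | ν {s} ≠ 0}.Countable ∧ {s | ν {s} ≠ 0}.Infinite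

section count

variable {K : ℤ → ℤ} {q : ℕ}

theorem K_le (h1 : ∀ n, K n + 1 ≤ K (n + 1)) (m : ℤ) (d : ℕ) : K m + d ≤ K (m + d) := by
  induction d with
  | zero => simp
  | succ d ih =>
    have := h1 (m + d)
    push_cast
    rw [← add_assoc, ← add_assoc]
    omega

theorem K_ge (h2 : ∀ n, K (n + 1) ≤ K n + q) (m : ℤ) (d : ℕ) : K (m + d) ≤ K m + q * d := by
  induction d with
  | zero => simp
  | succ d ih =>
    have := h2 (m + d)
    push_cast
    rw [← add_assoc, mul_add]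
    omega

theorem K_abs (h1 : ∀ n, K n + 1 ≤ K (n + 1)) (n m : ℤ) : |n - m| ≤ |K n - K m| := by
  rcases le_total n m with h | h
  · obtain ⟨d, rfl⟩ := Int.le.dest h
    have := K_le h1 n d
    rw [abs_of_nonpos (by omega), abs_of_nonpos (by omega)]
    omega
  · obtain ⟨d, rfl⟩ := Int.le.dest h
    have := K_le h1 m d
    rw [abs_of_nonneg (by omega), abs_of_nonneg (by omega)]
    omega

theorem K_inj (h1 : ∀ n, K n + 1 ≤ K (n + 1)) : Function.Injective K := fun n m h => by
  have := K_abs h1 n m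
  rw [h, sub_self, abs_zero, abs_nonpos_iff] at this
  omega

/-- indicator that `K n - j` is a value -/
noncomputable def u (K : ℤ → ℤ) (j n : ℤ) : ℝ := if ∃ m, K n - K m = j then 1 else 0

/-- pair count -/
noncomputable def pc (K : ℤ → ℤ) (I : Finset ℤ) (j : ℤ) : ℝ :=
  ∑ n ∈ I, ∑ m ∈ I, if K n - K m = j then 1 else 0

theorem pc_sub (h1 : ∀ n, K n + 1 ≤ K (n + 1)) (A B j : ℤ) :
    |pc K (Ico A B) j - ∑ n ∈ Ico A B, u K j n| ≤ 2 * |(j : ℝ)| := by
  have key : ∀ n ∈ Ico A B, |(∑ m ∈ Ico A B, if K n - K m = j then (1 : ℝ) else 0) - u K j n| ≤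
      (if n ∈ Ico A (A + |j|) then 1 else 0) + (if n ∈ Ico (B - |j|) B then 1 else 0) := by
    intro n hn
    have hpos : (0 : ℝ) ≤ (if n ∈ Ico A (A + |j|) then 1 else 0) +
        (if n ∈ Ico (B - |j|) B then 1 else 0) := by positivity
    by_cases h : ∃ m, K n - K m = j
    · obtain ⟨m, hm⟩ := h
      have e : ∀ m', (K n - K m' = j) ↔ m' = m := fun m' =>
        ⟨fun h' => K_inj h1 (by omega), fun h' => h' ▸ hm⟩
      simp only [e, u, sum_ite_eq', exists_eq, if_true]
      by_cases hm' : m ∈ Ico A B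
      · simpa [hm'] using hpos
      · have h3 := K_abs h1 n m
        rw [hm, abs_le] at h3
        rw [if_neg hm', zero_sub, abs_neg, abs_one]
        rw [mem_Ico] at hn hm'
        by_cases h4 : n ∈ Ico A (A + |j|)
        · rw [if_pos h4]
          have : (0 : ℝ) ≤ if n ∈ Ico (B - |j|) B then 1 else 0 := by positivity
          linarith
        · rw [if_neg h4, if_pos (by rw [mem_Ico] at h4 ⊢; omega), zero_add]
    · rw [u, if_neg h, sum_eq_zero fun m _ => if_neg fun h' => h ⟨m, h'⟩]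
      simpa using hpos
  have hc : ∀ C D : ℤ, D - C = |j| →
      ∑ n ∈ Ico A B, (if n ∈ Ico C D then (1 : ℝ) else 0) ≤ |(j : ℝ)| := by
    intro C D h
    rw [sum_boole]
    have : ((Ico A B).filter (· ∈ Ico C D)).card ≤ (Ico C D).card :=
      card_le_card fun n hn => (mem_filter.1 hn).2
    rw [Int.card_Ico, h] at this
    have h2 : ((|j|.toNat : ℕ) : ℝ) = |(j : ℝ)| := by
      rw [← Int.cast_abs, ← Int.cast_natCast, Int.toNat_of_nonneg (abs_nonneg j)]
    rw [← h2]
    exact_mod_cast this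
  rw [pc, ← sum_sub_distrib]
  refine (abs_sum_le_sum_abs _ _).trans ((sum_le_sum key).trans ?_)
  rw [sum_add_distrib]
  linarith [hc A (A + |j|) (by ring), hc (B - |j|) B (by ring)]

theorem sum_split (f : ℤ → ℝ) (A B : ℕ) : ∑ n ∈ Ico (-(B : ℤ)) A, f n =
    ∑ n ∈ range A, f n + ∑ n ∈ range B, f (-(n + 1)) := by
  have e : Ico (-(B : ℤ)) A = (range A).image (fun n : ℕ => (n : ℤ)) ∪
      (range B).image (fun n : ℕ => -((n : ℤ) + 1)) := by
    ext n
    simp only [mem_Ico, mem_union, mem_image, mem_range]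
    constructor
    · rintro ⟨h1, h2⟩
      rcases le_or_gt 0 n with h | h
      · exact Or.inl ⟨n.toNat, by omega, by omega⟩
      · exact Or.inr ⟨(-n - 1).toNat, by omega, by omega⟩
    · rintro (⟨m, h1, rfl⟩ | ⟨m, h1, rfl⟩) <;> omega
  rw [e, sum_union, sum_image, sum_image]
  · intro a _ b _ h
    simp only at h
    omega
  · intro a _ b _ h
    simp only at h
    omega
  · rw [disjoint_left]
    intro n h1 h2
    obtain ⟨a, -, rfl⟩ := mem_image.1 h1
    obtain ⟨b, -, h⟩ := mem_image.1 h2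
    omega

theorem side {y : ℕ → ℝ} {M g : ℝ} (hm : Monotone y) (hM : ∀ n, y (n + 1) ≤ y n + M)
    (hg : 0 < g) (hy : Tendsto (fun n : ℕ => y n / n) atTop (𝓝 g)) :
    ∃ N : ℝ → ℕ, (∀ T n, y n ≤ T ↔ n < N T) ∧ ∀ (v : ℕ → ℝ) (a : ℝ),
      Tendsto (fun n : ℕ => (∑ i ∈ range n, v i) / n) atTop (𝓝 a) →
      Tendsto (fun T : ℝ => (∑ i ∈ range (N T), v i) / T) atTop (𝓝 (a / g)) := by
  have hinf : Tendsto y atTop atTop := by
    refine (hy.pos_mul_atTop hg tendsto_natCast_atTop_atTop).congr' ?_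
    filter_upwards [eventually_gt_atTop 0] with n hn
    have : (n : ℝ) ≠ 0 := by positivity
    field_simp
  have hex : ∀ T : ℝ, ∃ n, T < y n := fun T => (hinf.eventually_gt_atTop T).exists
  have hN : ∀ T n, y n ≤ T ↔ n < Nat.find (hex T) := by
    intro T n
    constructor
    · intro h
      by_contra h'
      exact absurd ((Nat.find_spec (hex T)).trans_le (hm (not_lt.1 h'))) (not_lt.2 h)
    · intro h
      exact not_lt.1 (Nat.find_min (hex T) h)
  refine ⟨fun T => Nat.find (hex T), hN, fun v a hv => ?_⟩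
  have hT : Tendsto (fun T => Nat.find (hex T)) atTop atTop := by
    refine tendsto_atTop.2 fun n => ?_
    filter_upwards [eventually_ge_atTop (y n)] with T hT using ((hN T n).1 hT).le
  have h1 : Tendsto (fun T : ℝ => T / (Nat.find (hex T) : ℝ)) atTop (𝓝 g) := by
    have h2 := hy.comp hT
    have h3 : Tendsto (fun T : ℝ => y (Nat.find (hex T)) / (Nat.find (hex T) : ℝ) -
        M / (Nat.find (hex T) : ℝ)) atTop (𝓝 (g - 0)) :=
      h2.sub ((tendsto_const_div_atTop_nhds_zero_nat M).comp hT)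
    rw [sub_zero] at h3
    refine tendsto_of_tendsto_of_tendsto_of_le_of_le' h3 h2 ?_ ?_
    · filter_upwards [hT.eventually_gt_atTop 0] with T h
      obtain ⟨k, hk⟩ : ∃ k, Nat.find (hex T) = k + 1 := ⟨_, (Nat.succ_pred_eq_of_pos h).symm⟩
      have h4 := (hN T k).2 (by omega)
      rw [← sub_div, hk]
      gcongr
      linarith [hM k]
    · filter_upwards with T
      have := (Nat.find_spec (hex T)).le
      simp only [Function.comp]
      gcongr
  refine ((hv.comp hT).div h1 hg.ne').congr' ?_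
  filter_upwards [hT.eventually_gt_atTop 0] with T h
  have : (Nat.find (hex T) : ℝ) ≠ 0 := by positivity
  simp only [Function.comp, Pi.div_apply]
  rw [div_div_div_cancel_right₀ this]

end count

end Pool.Agent.H.MP_23b0f8_an
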