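import Pool.Agent.H.MP_23b0f8_an.A

/-! Subsets of a lattice with frequencies: autocorrelation and Herglotz measure. -/

namespace Pool.Agent.H.MP_23b0f8_an

open Finset Filter Topology MeasureTheory
open scoped SchwartzMap FourierTransform Classical

/-- an increasing integer sequence with bounded gaps and frequencies -/
structure Good (K : ℤ → ℤ) (q : ℕ) (a : ℤ → ℝ) (g : ℝ) : Prop where
  k0 : K 0 = 0
  h1 : ∀ n, K n + 1 ≤ K (n + 1)
  h2 : ∀ n, K (n + 1) ≤ K n + q
  up : ∀ j, Tendsto (fun N : ℕ => (∑ n ∈ range N, u K j n) / N) atTop (𝓝 (a j))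
  dn : ∀ j, Tendsto (fun N : ℕ => (∑ n ∈ range N, u K j (-(n + 1))) / N) atTop (𝓝 (a j))
  gup : Tendsto (fun N : ℕ => (K N : ℝ) / N) atTop (𝓝 g)
  gdn : Tendsto (fun N : ℕ => (-K (-(N + 1)) : ℝ) / N) atTop (𝓝 g)

variable {K : ℤ → ℤ} {q : ℕ} {a : ℤ → ℝ} {g : ℝ}

theorem Good.g_pos (H : Good K q a g) : 0 < g := by
  refine one_pos.trans_le (ge_of_tendsto H.gup ?_)
  filter_upwards [eventually_gt_atTop 0] with N hN
  have h := K_le H.h1 0 N
  rw [H.k0, zero_add] at h
  rw [le_div_iff₀ (by positivity), one_mul]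
  exact_mod_cast h

theorem Good.a_mem (H : Good K q a g) (j : ℤ) : 0 ≤ a j ∧ a j ≤ 1 := by
  have hu : ∀ n, 0 ≤ u K j n ∧ u K j n ≤ 1 := fun n => by
    unfold u; split_ifs <;> norm_num
  refine ⟨ge_of_tendsto' (H.up j) fun N => div_nonneg (sum_nonneg fun n _ => (hu n).1)
    (by positivity), le_of_tendsto' (H.up j) fun N => ?_⟩
  refine div_le_one_of_le₀ ?_ (by positivity)
  calc _ ≤ ∑ _n ∈ range N, (1 : ℝ) := sum_le_sum fun n _ => (hu n).2
    _ = N := by simp

theorem Good.a_avg (H : Good K q a g) (M : ℕ) : (M : ℝ) ≤ ∑ j ∈ range (q * M), a j := by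
  refine ge_of_tendsto (tendsto_finsetSum _ fun j _ => H.up j) ?_
  filter_upwards [eventually_gt_atTop 0] with N hN
  rw [← sum_div, le_div_iff₀ (by positivity), sum_comm]
  have key : ∀ n : ℤ, (M : ℝ) ≤ ∑ j ∈ range (q * M), u K j n := by
    intro n
    simp only [u, sum_boole]
    have : (range M).card ≤ ((range (q * M)).filter fun j : ℕ => ∃ m, K n - K m = j).card := by
      refine card_le_card_of_injOn (fun d => (K n - K (n - d)).toNat) ?_ ?_
      · intro d hd
        have h3 := K_le H.h1 (n - d) d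
        have h4 := K_ge H.h2 (n - d) d
        have h5 := H.h1 0
        have h6 := H.h2 0
        rw [sub_add_cancel] at h3 h4
        have hd' : d < M := mem_range.1 hd
        have h7 : (q : ℤ) * d < q * M :=
          mul_lt_mul_of_pos_left (by exact_mod_cast hd') (by omega)
        rw [mem_coe, mem_filter, mem_range]
        refine ⟨?_, n - d, by simp only; omega⟩
        have : ((q * M : ℕ) : ℤ) = q * M := by push_cast; ring
        simp only
        omega
      · intro d _ e _ hde
        have h3 := K_le H.h1 (n - d) d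
        have h4 := K_le H.h1 (n - e) e
        rw [sub_add_cancel] at h3 h4
        have h5 : K (n - d) = K (n - e) := by simp only at hde; omega
        have := K_inj H.h1 h5
        omega
    rw [card_range] at this
    exact_mod_cast this
  calc (M : ℝ) * N = ∑ _n ∈ range N, (M : ℝ) := by simp [mul_comm]
    _ ≤ _ := sum_le_sum fun n _ => key n

/-- the autocorrelation -/
noncomputable def eta (a : ℤ → ℝ) (c h : ℝ) : Measure ℝ :=
  Measure.sum fun j : ℤ => ENNReal.ofReal (a j / c) • Measure.dirac (h * j)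

theorem exists_J {h : ℝ} (hh : 0 < h) {C : Set ℝ} (hC : IsCompact C) :
    ∃ J : ℤ, ∀ j : ℤ, j ∉ Icc (-J) J → h * j ∉ C := by
  obtain ⟨R, hR⟩ := hC.isBounded.subset_closedBall 0
  refine ⟨⌈R / h⌉, fun j hj hC => hj ?_⟩
  have h1 := hR hC
  rw [mem_closedBall_zero_iff, Real.norm_eq_abs, abs_mul, abs_of_pos hh, mul_comm,
    ← le_div_iff₀ hh] at h1
  have h2 : |(j : ℝ)| ≤ (⌈R / h⌉ : ℤ) := h1.trans (Int.le_ceil _)
  rw [mem_Icc, ← abs_le]
  exact_mod_cast h2

theorem Good.auto (H : Good K q a g) {h : ℝ} (hh : 0 < h) :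
    IsAutocorr (Set.range fun n => h * K n) (eta a (h * g) h) := by
  have hg := H.g_pos
  refine ⟨⟨fun C hC => ?_⟩, fun φ _ hs => ?_⟩
  · obtain ⟨J, hJ⟩ := exists_J hh hC
    rw [eta, Measure.sum_apply _ hC.measurableSet, tsum_eq_sum (s := Icc (-J) J) (fun j hj => by
      simp [Measure.dirac_apply' _ hC.measurableSet, hJ j hj])]
    refine ENNReal.sum_lt_top.2 fun j _ => ?_
    rw [Measure.smul_apply, smul_eq_mul]
    exact ENNReal.mul_lt_top ENNReal.ofReal_lt_top (measure_lt_top _ _)
  obtain ⟨J, hJ⟩ := exists_J hh hs.isCompact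
  have hJ' : ∀ j : ℤ, j ∉ Icc (-J) J → φ (h * j) = 0 := fun j hj =>
    image_eq_zero_of_notMem_tsupport (hJ j hj)
  rw [eta, integral_sum_dirac (fun _ => ENNReal.ofReal_ne_top),
    tsum_eq_sum (s := Icc (-J) J) (fun j hj => by rw [hJ' j hj, smul_zero])]
  have hmono : Monotone K := monotone_int_of_le_succ fun n => by linarith [H.h1 n]
  obtain ⟨N1, hN1, hT1⟩ := side (y := fun n : ℕ => h * K n) (M := h * q) (g := h * g)
    (fun n m hnm => by
      have : K n ≤ K m := hmono (by exact_mod_cast hnm)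
      simp only
      gcongr)
    (fun n => by
      have : ((K ((n + 1 : ℕ) : ℤ) : ℤ) : ℝ) ≤ K n + q := by exact_mod_cast H.h2 n
      nlinarith)
    (by positivity) (by simpa only [mul_div_assoc] using H.gup.const_mul h)
  obtain ⟨N2, hN2, hT2⟩ := side (y := fun n : ℕ => h * (-K (-(n + 1)) : ℝ)) (M := h * q)
    (g := h * g)
    (fun n m hnm => by
      have : K (-(m + 1)) ≤ K (-(n + 1)) := hmono (by omega)
      simp only
      gcongr)
    (fun n => by
      have h3 := H.h2 (-((n + 1 : ℕ) + 1))
      rw [show -(((n + 1 : ℕ) : ℤ) + 1) + 1 = -(n + 1) by push_cast; ring] at h3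
      have : ((K (-(n + 1)) : ℤ) : ℝ) ≤ K (-((n + 1 : ℕ) + 1)) + q := by exact_mod_cast h3
      nlinarith)
    (by positivity) (by simpa only [mul_div_assoc] using H.gdn.const_mul h)
  have hinj : Function.Injective fun n => h * (K n : ℝ) := fun n m hnm =>
    K_inj H.h1 (by exact_mod_cast mul_left_cancel₀ hh.ne' hnm)
  have hset : ∀ T : ℝ, 0 ≤ T → (Set.range fun n => h * (K n : ℝ)) ∩ Set.Icc (-T) T =
      (fun n => h * (K n : ℝ)) '' (Ico (-(N2 T : ℤ)) (N1 T) : Finset ℤ) := by
    intro T hT
    have key : ∀ n : ℤ, h * (K n : ℝ) ∈ Set.Icc (-T) T ↔ n ∈ Ico (-(N2 T : ℤ)) (N1 T) := by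
      intro n
      rw [Set.mem_Icc, mem_Ico]
      rcases le_or_gt 0 n with hn | hn
      · obtain ⟨k, rfl⟩ := Int.eq_ofNat_of_zero_le hn
        have h3 : (0 : ℝ) ≤ K k := by exact_mod_cast H.k0 ▸ hmono hn
        have h4 := hN1 T k
        have h5 : -T ≤ h * K k := by nlinarith
        simp only [h4, h5, true_and]
        omega
      · obtain ⟨k, rfl⟩ : ∃ k : ℕ, n = -(k + 1) := ⟨(-n - 1).toNat, by omega⟩
        have h3 : (K (-(k + 1)) : ℝ) ≤ 0 := by exact_mod_cast H.k0 ▸ hmono hn.le
        have h4 := hN2 T k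
        have h5 : h * K (-(k + 1)) ≤ T := by nlinarith
        have h6 : -T ≤ h * K (-(k + 1)) ↔ k < N2 T := by
          rw [← h4]; constructor <;> intro <;> linarith
        simp only [h5, h6, and_true]
        omega
    ext x
    constructor
    · rintro ⟨⟨n, rfl⟩, hn⟩
      exact ⟨n, (key n).1 hn, rfl⟩
    · rintro ⟨n, hn, rfl⟩
      exact ⟨⟨n, rfl⟩, (key n).2 hn⟩
  have hpc : ∀ j : ℤ, Tendsto (fun T : ℝ => pc K (Ico (-(N2 T : ℤ)) (N1 T)) j / (2 * T)) atTop
      (𝓝 (a j / (h * g))) := by
    intro j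
    have h3 := ((hT1 _ _ (H.up j)).add (hT2 _ _ (H.dn j))).div_const 2
    rw [add_self_div_two] at h3
    have h4 : Tendsto (fun T : ℝ => |(j : ℝ)| / T) atTop (𝓝 0) :=
      tendsto_const_nhds.div_atTop tendsto_id
    have h5 : Tendsto (fun T : ℝ => (pc K (Ico (-(N2 T : ℤ)) (N1 T)) j -
        ∑ n ∈ Ico (-(N2 T : ℤ)) (N1 T), u K j n) / (2 * T)) atTop (𝓝 0) := by
      refine squeeze_zero_norm' ?_ h4
      filter_upwards [eventually_gt_atTop 0] with T hT
      rw [Real.norm_eq_abs, abs_div, abs_of_pos (by positivity : 0 < 2 * T),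
        ← mul_div_mul_left _ T two_ne_zero]
      gcongr
      exact pc_sub H.h1 _ _ _
    have h6 := h5.add h3
    rw [zero_add] at h6
    refine h6.congr fun T => ?_
    rw [sum_split]
    ring
  refine (tendsto_finsetSum (Icc (-J) J) fun j _ => (hpc j).mul_const (φ (h * j))).congr' ?_ |>.trans_eq ?_
  · filter_upwards [eventually_ge_atTop 0] with T hT
    rw [hset T hT, finsum_mem_image hinj.injOn, finsum_mem_coe_finset]
    simp only [finsum_mem_image hinj.injOn, finsum_mem_coe_finset]
    have e : ∀ n m : ℤ, φ (h * K n - h * K m) =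
        ∑ j ∈ Icc (-J) J, (if K n - K m = j then 1 else 0) * φ (h * j) := by
      intro n m
      simp only [ite_mul, one_mul, zero_mul, sum_ite_eq]
      split_ifs with h3
      · push_cast; rw [mul_sub]
      · rw [← hJ' _ h3]; push_cast; rw [mul_sub]
    simp only [e, pc]
    have e2 : ∀ (I : Finset ℤ) (F : ℤ → ℤ → ℤ → ℝ), ∑ n ∈ I, ∑ m ∈ I, ∑ j ∈ Icc (-J) J, F n m j =
        ∑ j ∈ Icc (-J) J, ∑ n ∈ I, ∑ m ∈ I, F n m j := fun I F => by
      rw [sum_comm (s := Icc (-J) J)]
      exact sum_congr rfl fun n _ => sum_comm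
    rw [e2, mul_sum]
    refine sum_congr rfl fun j _ => ?_
    simp only [← sum_mul]
    ring
  · congr 1
    refine sum_congr rfl fun j _ => ?_
    rw [ENNReal.toReal_ofReal (div_nonneg (H.a_mem j).1 (by positivity)), smul_eq_mul]

theorem int_fourier (k : ℤ) :
    ∫ s : AddCircle (1 : ℝ), fourier k s = if k = 0 then 1 else 0 := by
  have e := congrFun (fourierCoeff_fourier (T := 1) k) 0
  rw [fourierCoeff, AddCircle.integral_haarAddCircle] at e
  simp only [neg_zero, fourier_zero, one_smul, inv_one] at e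
  rw [e, Pi.single_apply]
  simp only [eq_comm]

theorem Good.herglotz (H : Good K q a g) : ∃ ρ : Measure (AddCircle (1 : ℝ)),
    IsProbabilityMeasure ρ ∧ ∀ j, ∫ s, fourier j s ∂ρ = a j := by
  have int (f : C(AddCircle (1 : ℝ), ℂ)) : Integrable f :=
    f.continuous.integrable_of_hasCompactSupport (HasCompactSupport.of_compactSpace f)
  let d : ℕ → AddCircle (1 : ℝ) → NNReal := fun N s =>
    ‖∑ n ∈ Ico (0 : ℤ) (N + 1 : ℕ), fourier (K n) s‖₊ ^ 2 / (N + 1 : ℕ)
  have hd : ∀ N, Continuous (d N) := fun N => by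
    simp only [d]
    fun_prop
  have key : ∀ N j, ∫ s, fourier j s ∂(volume.withDensity fun s => d N s) =
      (pc K (Ico (0 : ℤ) (N + 1 : ℕ)) j / (N + 1 : ℕ) : ℝ) := by
    intro N j
    rw [integral_withDensity_eq_integral_smul (hd N).measurable]
    have e : ∀ s, d N s • fourier j s = (∑ n ∈ Ico (0 : ℤ) (N + 1 : ℕ),
        ∑ m ∈ Ico (0 : ℤ) (N + 1 : ℕ), fourier (j + K m - K n) s) / (N + 1 : ℕ) := by
      intro s
      have e1 : ∀ n m, fourier (j + K m - K n) s =
          (starRingEnd ℂ) (fourier (K n) s) * fourier (K m) s * fourier j s := by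
        intro n m
        rw [sub_eq_add_neg, fourier_add, fourier_add, fourier_neg]
        ring
      simp only [e1, ← sum_mul, ← mul_sum, ← map_sum]
      rw [Complex.conj_mul', NNReal.smul_def, Complex.real_smul]
      simp only [d]
      push_cast
      ring
    simp only [e]
    rw [integral_div, integral_finsetSum _ fun n _ => integrable_finsetSum _ fun m _ => int _]
    simp only [integral_finsetSum _ fun m _ => int _, int_fourier, pc]
    push_cast
    congr 1
    refine sum_congr rfl fun n _ => sum_congr rfl fun m _ => ?_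
    by_cases h : K n - K m = j
    · rw [if_pos h, if_pos (by omega)]; simp
    · rw [if_neg h, if_neg (by omega)]; simp
  have hp : ∀ N, IsProbabilityMeasure (volume.withDensity fun s => d N s) := by
    intro N
    have := key N 0
    simp only [fourier_zero, integral_const, Complex.real_smul, mul_one] at this
    rw [isProbabilityMeasure_iff_real, Complex.ofReal_injective this, pc]
    have e : ∀ n m, K n - K m = 0 ↔ n = m := fun n m =>
      ⟨fun h => K_inj H.h1 (by omega), fun h => by rw [h, sub_self]⟩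
    simp only [e, sum_ite_eq]
    rw [sum_congr rfl fun n hn => if_pos hn]
    simp only [sum_const, Int.card_Ico, sub_zero, Int.toNat_natCast, nsmul_eq_mul, mul_one]
    exact div_self (by positivity)
  let P : ℕ → ProbabilityMeasure (AddCircle (1 : ℝ)) := fun N => ⟨_, hp N⟩
  obtain ⟨ρ, -, hρ⟩ := isCompact_univ.ultrafilter_le_nhds ((hyperfilter ℕ).map P) (by simp)
  refine ⟨ρ, ρ.2, fun j => ?_⟩
  have h1 := (ProbabilityMeasure.tendsto_iff_forall_integral_rclike_tendsto ℂ).1
    (show Tendsto P (hyperfilter ℕ) (𝓝 ρ) from hρ)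
    (BoundedContinuousFunction.mkOfCompact (fourier j))
  have h2 : Tendsto (fun N : ℕ => pc K (Ico (0 : ℤ) N) j / N) atTop (𝓝 (a j)) := by
    have h5 : Tendsto (fun N : ℕ => (pc K (Ico (0 : ℤ) N) j -
        ∑ n ∈ Ico (0 : ℤ) N, u K j n) / N) atTop (𝓝 0) := by
      refine squeeze_zero_norm (fun N => ?_) (tendsto_const_div_atTop_nhds_zero_nat (2 * |(j : ℝ)|))
      rw [Real.norm_eq_abs, abs_div, Nat.abs_cast]
      gcongr
      exact pc_sub H.h1 _ _ _
    have h6 := h5.add (H.up j)
    rw [zero_add] at h6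
    refine h6.congr fun N => ?_
    have := sum_split (u K j) N 0
    simp only [Nat.cast_zero, neg_zero, range_zero, sum_empty, add_zero] at this
    rw [this]
    ring
  have h3 := (Complex.continuous_ofReal.tendsto _).comp ((tendsto_add_atTop_iff_nat 1).2 h2)
  refine tendsto_nhds_unique h1 ((h3.mono_left (Nat.hyperfilter_le_atTop)).congr fun N => ?_)
  exact (key N j).symm

theorem Good.atom (H : Good K q a g) {ρ : Measure (AddCircle (1 : ℝ))} [IsProbabilityMeasure ρ]
    (hρ : ∀ j, ∫ s, fourier j s ∂ρ = a j) : ρ {0} ≠ 0 := by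
  intro h0
  have int (f : C(AddCircle (1 : ℝ), ℂ)) : Integrable f ρ :=
    f.continuous.integrable_of_hasCompactSupport (HasCompactSupport.of_compactSpace f)
  have hq : 0 < q := by have := H.h1 0; have := H.h2 0; omega
  have h1 : Tendsto (fun J : ℕ => ∫ s, (∑ j ∈ range J, fourier j s) / J ∂ρ) atTop
      (𝓝 (∫ _, (0 : ℂ) ∂ρ)) := by
    refine tendsto_integral_of_dominated_convergence (fun _ => 1) (fun J => ?_)
      (integrable_const _) (fun J => ae_of_all _ fun s => ?_) ?_
    · exact Continuous.aestronglyMeasurable (by fun_prop)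
    · rw [norm_div, Complex.norm_natCast]
      refine div_le_one_of_le₀ ((norm_sum_le _ _).trans ?_) (by positivity)
      simp [fourier_apply]
    · filter_upwards [measure_eq_zero_iff_ae_notMem.1 h0] with s hs
      have hz : fourier 1 s ≠ 1 := by
        rw [fourier_one]
        intro h
        apply hs
        have h' : AddCircle.toCircle s = AddCircle.toCircle (0 : AddCircle (1 : ℝ)) := by
          rw [AddCircle.toCircle_zero]; exact Subtype.ext h
        exact AddCircle.injective_toCircle one_ne_zero h'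
      have e : ∀ j : ℕ, fourier j s = fourier 1 s ^ j := by
        intro j
        induction j with
        | zero => simp
        | succ j ih => rw [pow_succ, ← ih, ← fourier_add]; push_cast; rfl
      simp only [e, geom_sum_eq hz]
      refine squeeze_zero_norm (fun J => ?_)
        (tendsto_const_div_atTop_nhds_zero_nat (2 / ‖fourier 1 s - 1‖))
      rw [norm_div, norm_div, Complex.norm_natCast]
      gcongr
      refine (norm_sub_le _ _).trans ?_
      simp [fourier_apply]
      norm_num
  rw [integral_zero] at h1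
  have h2 := (Complex.continuous_re.tendsto _).comp
    (h1.comp (tendsto_id.const_mul_atTop' hq : Tendsto (fun M : ℕ => q * M) atTop atTop))
  have h3 : (1 : ℝ) / q ≤ (0 : ℂ).re := by
    refine ge_of_tendsto h2 ?_
    filter_upwards [eventually_gt_atTop 0] with M hM
    simp only [Function.comp]
    rw [integral_div, integral_finsetSum _ fun j _ => int _]
    simp only [hρ]
    rw [← Complex.ofReal_sum, ← Complex.ofReal_natCast, ← Complex.ofReal_div, Complex.ofReal_re,
      div_le_div_iff₀ (by positivity) (by positivity)]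
    have := H.a_avg M
    have hq' : (0 : ℝ) < q := by positivity
    push_cast
    nlinarith
  have : (0 : ℝ) < 1 / q := by positivity
  simp only [Complex.zero_re] at h3
  linarith

end Pool.Agent.H.MP_23b0f8_an
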