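import Pool.Agent.H.MP_23b0f8_an.B

/-! The diffraction measure of a subset of a lattice. -/

namespace Pool.Agent.H.MP_23b0f8_an

open Finset Filter Topology MeasureTheory
open scoped SchwartzMap FourierTransform Classical

theorem summ : Summable fun k : ℤ => 1 / (1 + (k : ℝ) ^ 2) := by
  refine Summable.of_norm_bounded_eventually (Real.summable_one_div_int_pow.2 one_lt_two) ?_
  filter_upwards [(Set.finite_singleton (0 : ℤ)).compl_mem_cofinite] with k hk
  have hk' : (k : ℝ) ≠ 0 := by exact_mod_cast hk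
  rw [Real.norm_eq_abs, abs_of_pos (by positivity)]
  gcongr
  linarith

theorem decay (ψ : 𝓢(ℝ, ℂ)) : ∃ C : ℝ, ∀ (t : ℝ) (k : ℤ), 0 ≤ t → t ≤ 1 →
    ‖ψ (t + k)‖ ≤ C * (1 / (1 + (k : ℝ) ^ 2)) := by
  refine ⟨3 * (SchwartzMap.seminorm ℝ 0 0 ψ + SchwartzMap.seminorm ℝ 2 0 ψ), fun t k h0 h1 => ?_⟩
  have e0 := SchwartzMap.norm_le_seminorm ℝ ψ (t + k)
  have e2 := SchwartzMap.norm_pow_mul_le_seminorm ℝ ψ 2 (t + k)
  rw [Real.norm_eq_abs, sq_abs] at e2
  rw [mul_one_div, le_div_iff₀ (by positivity)]
  have h3 : 1 + (k : ℝ) ^ 2 ≤ 3 * (1 + (t + k) ^ 2) := by nlinarith [sq_nonneg (2 * t + k)]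
  have h4 := norm_nonneg (ψ (t + k))
  nlinarith

/-- rescaled Schwartz function -/
noncomputable def scale (h : ℝ) (hh : h ≠ 0) (φ : 𝓢(ℝ, ℂ)) : 𝓢(ℝ, ℂ) :=
  SchwartzMap.compCLMOfContinuousLinearEquiv ℂ
    (ContinuousLinearEquiv.unitsEquivAut ℝ (Units.mk0 h⁻¹ (inv_ne_zero hh))) φ

theorem scale_apply (h : ℝ) (hh : h ≠ 0) (φ : 𝓢(ℝ, ℂ)) (x : ℝ) : scale h hh φ x = φ (x / h) := by
  simp [scale, div_eq_mul_inv]

theorem scale_fourier {h : ℝ} (hh : 0 < h) (φ : 𝓢(ℝ, ℂ)) (w : ℝ) :
    𝓕 (scale h hh.ne' φ) w = h * 𝓕 (φ : ℝ → ℂ) (h * w) := by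
  rw [SchwartzMap.fourier_coe, Real.fourier_real_eq, Real.fourier_real_eq]
  have := Measure.integral_comp_div (fun v : ℝ => Real.fourierChar (-(v * (h * w))) • φ v) h
  rw [abs_of_pos hh, Complex.real_smul] at this
  rw [← this]
  congr 1
  ext v
  rw [scale_apply]
  congr 3
  field_simp

/-- representative in the unit interval -/
noncomputable def rep (s : AddCircle (1 : ℝ)) : ℝ := (AddCircle.equivIco 1 0 s : ℝ)

theorem rep_meas : Measurable rep :=
  measurable_subtype_coe.comp (AddCircle.measurableEquivIco 1 0).measurable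

theorem rep_mem (s : AddCircle (1 : ℝ)) : 0 ≤ rep s ∧ rep s < 1 := by
  have := (AddCircle.equivIco 1 0 s).2
  exact ⟨this.1, this.2.trans_eq (zero_add 1)⟩

theorem rep_coe (s : AddCircle (1 : ℝ)) : ((rep s : ℝ) : AddCircle (1 : ℝ)) = s :=
  (AddCircle.equivIco 1 0).symm_apply_apply s

theorem rep_mk (t : ℝ) : rep t = Int.fract t := by
  have h := rep_mem t
  have h2 := rep_coe t
  rw [← AddCircle.coe_fract t, AddCircle.coe_eq_coe_iff_of_mem_Ico (a := 0)
    ⟨by rw [AddCircle.coe_fract]; exact h.1, by rw [AddCircle.coe_fract]; simpa using h.2⟩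
    ⟨Int.fract_nonneg _, by simpa using Int.fract_lt_one _⟩, AddCircle.coe_fract] at h2
  exact h2

variable {K : ℤ → ℤ} {q : ℕ} {a : ℤ → ℝ} {g : ℝ}

theorem Good.diffr (H : Good K q a g) {h : ℝ} (hh : 0 < h) :
    Diffr (Set.range fun n => h * K n) := by
  obtain ⟨ρ, hρ, hρ2⟩ := H.herglotz
  have hg := H.g_pos
  have hat := H.atom hρ2
  have hm : ∀ k : ℤ, Measurable fun s => (rep s + k) / h := fun k =>
    (rep_meas.add_const _).div_const _
  set c : ENNReal := ENNReal.ofReal (1 / (h * h * g)) with hc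
  let ν : Measure ℝ := c • Measure.sum fun k : ℤ => ρ.map fun s => (rep s + k) / h
  refine ⟨eta a (h * g) h, ν, H.auto hh, fun φ => ?_, ?_, ?_⟩
  · set ψ := scale h hh.ne' φ with hψ
    obtain ⟨C, hC⟩ := decay ψ
    obtain ⟨C', hC'⟩ := decay (𝓕 ψ)
    have hs : Summable fun k : ℤ => ‖𝓕 (φ : ℝ → ℂ) (h * k)‖ := by
      refine Summable.of_nonneg_of_le (fun _ => norm_nonneg _) (fun k => ?_)
        (summ.mul_left (C' / h))
      have := hC' 0 k le_rfl zero_le_one
      rw [zero_add, hψ, scale_fourier hh, norm_mul, Complex.norm_real, Real.norm_eq_abs,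
        abs_of_pos hh] at this
      rw [div_mul_eq_mul_div, le_div_iff₀ hh]
      linarith
    have ha : ∀ j, (ENNReal.ofReal (a j / (h * g))).toReal = a j / (h * g) := fun j =>
      ENNReal.toReal_ofReal (div_nonneg (H.a_mem j).1 (by positivity))
    have hi : ∀ k : ℤ, Integrable (fun s => ψ (rep s + k)) ρ := fun k =>
      Integrable.of_bound ((ψ.continuous.measurable.comp
        (rep_meas.add_const _)).aestronglyMeasurable) _
        (ae_of_all _ fun s => hC _ k (rep_mem s).1 (rep_mem s).2.le)
    have hsi : Summable fun k : ℤ => ∫ s, ‖ψ (rep s + k)‖ ∂ρ := by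
      refine Summable.of_nonneg_of_le (fun _ => integral_nonneg fun _ => norm_nonneg _)
        (fun k => ?_) (summ.mul_left C)
      refine (integral_mono (hi k).norm (integrable_const _)
        fun s => hC _ k (rep_mem s).1 (rep_mem s).2.le).trans (by simp)
    have hint : Integrable φ (Measure.sum fun k : ℤ => ρ.map fun s => (rep s + k) / h) := by
      refine integrable_sum_measure (fun k => ?_) ?_
      · rw [integrable_map_measure φ.continuous.aestronglyMeasurable (hm k).aemeasurable]
        simpa only [hψ, scale_apply, Function.comp_def] using hi k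
      · refine hsi.congr fun k => ?_
        rw [integral_map (hm k).aemeasurable φ.continuous.norm.aestronglyMeasurable]
        simp only [hψ, scale_apply]
    refine ⟨integrable_sum_dirac (fun _ => ENNReal.ofReal_ne_top) ?_,
      hint.smul_measure ENNReal.ofReal_ne_top, ?_⟩
    · refine Summable.of_nonneg_of_le (fun _ => by positivity) (fun k => ?_)
        (hs.mul_left (1 / (h * g)))
      rw [ha]
      gcongr
      exact (H.a_mem k).2
    · rw [eta, integral_sum_dirac (fun _ => ENNReal.ofReal_ne_top), integral_smul_measure,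
        integral_sum_measure hint]
      have e1 : ∀ k : ℤ, ∫ x, φ x ∂(ρ.map fun s => (rep s + k) / h) = ∫ s, ψ (rep s + k) ∂ρ := by
        intro k
        rw [integral_map (hm k).aemeasurable φ.continuous.aestronglyMeasurable]
        simp only [hψ, scale_apply]
      simp only [e1]
      rw [integral_tsum_of_summable_integral_norm hi hsi]
      simp only [SchwartzMap.tsum_eq_tsum_fourier, rep_coe]
      have hi2 : ∀ k : ℤ, Integrable (fun s : AddCircle (1 : ℝ) => 𝓕 ψ k * fourier k s) ρ :=
        fun k => Continuous.integrable_of_hasCompactSupport (by fun_prop)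
          (HasCompactSupport.of_compactSpace _)
      rw [← integral_tsum_of_summable_integral_norm hi2 (by
        refine (hs.mul_left h).congr fun k => ?_
        simp [hψ, scale_fourier hh, fourier_apply, abs_of_pos hh])]
      simp only [integral_const_mul, hρ2, ha]
      rw [← tsum_const_smul'', hc, ENNReal.toReal_ofReal (by positivity)]
      refine tsum_congr fun k => ?_
      rw [hψ, scale_fourier hh, Complex.real_smul, Complex.real_smul]
      have h1 : (h : ℂ) ≠ 0 := by exact_mod_cast hh.ne'
      have h2 : (g : ℂ) ≠ 0 := by exact_mod_cast hg.ne'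
      push_cast
      field_simp
  · refine (Measure.countable_meas_level_set_pos (μ := ν) measurable_id).mono fun s hs => ?_
    exact pos_iff_ne_zero.2 hs
  · refine Set.infinite_of_injective_forall_mem (f := fun k : ℤ => (k : ℝ) / h)
      (fun k l hkl => by exact_mod_cast (div_left_inj' hh.ne').1 hkl) fun k => ?_
    intro h0
    rw [Measure.smul_apply, smul_eq_mul, mul_eq_zero] at h0
    rcases h0 with h0 | h0
    · rw [hc, ENNReal.ofReal_eq_zero] at h0
      exact absurd h0 (not_le.2 (by positivity))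
    · have h1 := Measure.le_sum (fun k : ℤ => ρ.map fun s => (rep s + k) / h) k {(k : ℝ) / h}
      rw [h0, nonpos_iff_eq_zero, Measure.map_apply (hm k) (measurableSet_singleton _)] at h1
      refine hat (measure_mono_null ?_ h1)
      rintro _ rfl
      have : rep 0 = 0 := by simpa using rep_mk 0
      simp [this]

theorem weyl {γ : ℝ} (hγ : Irrational γ) (x : ℝ) {E : Set (AddCircle (1 : ℝ))}
    (hE : (frontier E).Countable) :
    Tendsto (fun N : ℕ => (∑ n ∈ range N,
      E.indicator (fun _ => (1 : ℝ)) ((x + n * γ : ℝ) : AddCircle (1 : ℝ))) / N) atTop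
      (𝓝 (volume.real E)) := by
  have main (f : C(AddCircle (1 : ℝ), ℂ)) : Tendsto
      (fun N : ℕ => (∑ n ∈ range N, f ((x + n * γ : ℝ))) / N) atTop (𝓝 (∫ x, f x)) := by
    have mem : f ∈ closure (Submodule.span ℂ (Set.range (fourier (T := 1))) : Set _) := by
      rw [← Submodule.topologicalClosure_coe, span_fourier_closure_eq_top]; trivial
    have int (f : C(AddCircle (1 : ℝ), ℂ)) : Integrable f :=
      f.continuous.integrable_of_hasCompactSupport (HasCompactSupport.of_compactSpace f)
    have base : ∀ g ∈ Submodule.span ℂ (Set.range (fourier (T := 1))), Tendsto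
        (fun N : ℕ => (∑ n ∈ range N, g ((x + n * γ : ℝ))) / N) atTop (𝓝 (∫ x, g x)) := by
      intro g hg
      induction hg using Submodule.span_induction with
      | mem g hg =>
        obtain ⟨k, rfl⟩ := hg
        rw [int_fourier]
        split_ifs with hk
        · subst hk
          simp only [fourier_zero, sum_const, card_range, nsmul_eq_mul, mul_one]
          refine tendsto_const_nhds.congr' ((eventually_ne_atTop 0).mono fun N hN => ?_)
          exact (div_self (by exact_mod_cast hN)).symm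
        · have e : ∀ n : ℕ, fourier k ((x + n * γ : ℝ) : AddCircle (1 : ℝ)) =
              fourier k (x : AddCircle (1 : ℝ)) * fourier k (γ : AddCircle (1 : ℝ)) ^ n := by
            intro n
            simp only [fourier_coe_apply, ← Complex.exp_nat_mul, ← Complex.exp_add]
            congr 1
            push_cast
            ring
          have hz : fourier k (γ : AddCircle (1 : ℝ)) ≠ 1 := by
            rw [fourier_coe_apply]
            intro h
            obtain ⟨n, hn⟩ := Complex.exp_eq_one_iff.1 h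
            have h1 := congrArg Complex.im hn
            simp at h1
            have h2 : (k : ℝ) * γ = n := by nlinarith [Real.pi_pos]
            exact (hγ.intCast_mul hk).ne_int n h2
          simp only [e, ← mul_sum, geom_sum_eq hz]
          refine squeeze_zero_norm (fun J => ?_) (tendsto_const_div_atTop_nhds_zero_nat
            (2 / ‖fourier k (γ : AddCircle (1 : ℝ)) - 1‖))
          have n1 : ∀ s : AddCircle (1 : ℝ), ‖fourier k s‖ = 1 := fun s => by simp [fourier_apply]
          rw [norm_div, norm_mul, n1, one_mul, norm_div, Complex.norm_natCast]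
          gcongr
          refine (norm_sub_le _ _).trans ?_
          rw [norm_pow, n1]
          norm_num
      | zero => simp
      | add f g _ _ h1 h2 =>
        simpa [sum_add_distrib, add_div, integral_add (int f) (int g)] using h1.add h2
      | smul c f _ h1 =>
        simpa [← mul_sum, mul_div_assoc, integral_const_mul] using h1.const_mul c
    rw [Metric.tendsto_atTop]
    intro ε hε
    obtain ⟨g, hg, hd⟩ := Metric.mem_closure_iff.1 mem (ε / 3) (by positivity)
    obtain ⟨N, hN⟩ := Metric.tendsto_atTop.1 (base g hg) (ε / 3) (by positivity)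
    refine ⟨N, fun n hn => ?_⟩
    have b1 : dist ((∑ i ∈ range n, f ((x + i * γ : ℝ))) / n)
        ((∑ i ∈ range n, g ((x + i * γ : ℝ))) / n) ≤ dist f g := by
      rw [dist_eq_norm, ← sub_div, ← sum_sub_distrib, norm_div, Complex.norm_natCast]
      refine div_le_of_le_mul₀ (by positivity) dist_nonneg ((norm_sum_le_of_le _
        (n := fun _ => dist f g) fun i _ => ?_).trans (by simp [mul_comm]))
      rw [← dist_eq_norm]; exact ContinuousMap.dist_apply_le_dist _
    have b2 : dist (∫ x, g x) (∫ x, f x) ≤ dist f g := by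
      rw [dist_comm, dist_eq_norm, ← integral_sub (int f) (int g)]
      refine (norm_integral_le_of_norm_le_const (C := dist f g) (ae_of_all _ fun x => ?_)).trans
        (by simp [Measure.real])
      rw [← dist_eq_norm]; exact ContinuousMap.dist_apply_le_dist _
    linarith [dist_triangle4 ((∑ i ∈ range n, f ((x + i * γ : ℝ))) / n)
      ((∑ i ∈ range n, g ((x + i * γ : ℝ))) / n) (∫ x, g x) (∫ x, f x), hN n hn]
  let μ : ℕ → ProbabilityMeasure (AddCircle (1 : ℝ)) := fun N =>
    ⟨((N + 1 : ℕ) : ENNReal)⁻¹ • ∑ n ∈ range (N + 1),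
      Measure.dirac ((x + n * γ : ℝ) : AddCircle (1 : ℝ)), ⟨by simp [ENNReal.inv_mul_cancel]⟩⟩
  let ν : ProbabilityMeasure (AddCircle (1 : ℝ)) := ⟨volume, ⟨by simp⟩⟩
  have lim : Tendsto μ atTop (𝓝 ν) := by
    refine (ProbabilityMeasure.tendsto_iff_forall_integral_rclike_tendsto ℂ).2 fun f => ?_
    refine ((tendsto_add_atTop_iff_nat 1).2 (main f.toContinuousMap)).congr fun N => ?_
    simp only [μ, ProbabilityMeasure.coe_mk, integral_smul_measure]
    rw [integral_finsetSum_measure fun _ _ => f.integrable _]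
    simp [div_eq_inv_mul, ENNReal.toReal_add]
  have : NullSingletonClass (volume : Measure (AddCircle (1 : ℝ))) := ⟨fun s => by
    simpa using AddCircle.volume_closedBall (T := 1) (x := s) 0⟩
  have key := ProbabilityMeasure.tendsto_measure_of_null_frontier_of_tendsto' lim (E := E)
    (hE.measure_zero volume)
  have k2 := (ENNReal.tendsto_toReal (measure_ne_top _ _)).comp key
  refine (tendsto_add_atTop_iff_nat 1).1 (k2.congr fun N => ?_)
  simp [μ, Set.indicator_apply, div_eq_inv_mul, ENNReal.toReal_add]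

/-- the staircase condition -/
def IsStair (D γ x₀ : ℝ) (p : ℤ → ℤ × ℤ) : Prop :=
  p 0 = 0 ∧ ∀ n : ℤ, p (n + 1) - p n = if Int.fract (x₀ + n * γ) < D then (0, 1) else (1, 0)

/-- coordinate, along the line spanned by `(1 - D, D)`, of the orthogonal projection -/
noncomputable def proj (D : ℝ) (p : ℤ × ℤ) : ℝ :=
  ((1 - D) * p.1 + D * p.2) / √((1 - D) ^ 2 + D ^ 2)

/-- signed sums -/
noncomputable def ssum {G : Type*} [AddCommGroup G] (f : ℤ → G) (n : ℤ) : G :=
  ∑ i ∈ Ico 0 n, f i - ∑ i ∈ Ico n 0, f i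

theorem ssum_succ {G : Type*} [AddCommGroup G] (f : ℤ → G) (n : ℤ) :
    ssum f (n + 1) - ssum f n = f n := by
  unfold ssum
  rcases le_or_gt 0 n with h | h
  · rw [← insert_Ico_right_eq_Ico_add_one h, sum_insert (by simp), Ico_eq_empty_of_le h,
      Ico_eq_empty_of_le (by omega : (0 : ℤ) ≤ n + 1)]
    simp
  · rw [← insert_Ico_add_one_left_eq_Ico h, sum_insert (by simp), Ico_eq_empty_of_le h.le,
      Ico_eq_empty_of_le (by omega : n + 1 ≤ (0 : ℤ))]
    simp

theorem eq_ssum {K f : ℤ → ℤ} (h : ∀ n, K (n + 1) - K n = f n) (n d : ℤ) :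
    K (n + d) - K n = ssum (fun i => f (n + i)) d := by
  induction d using Int.induction_on with
  | zero => simp [ssum]
  | succ d ih =>
    have h1 := ssum_succ (fun i => f (n + i)) d
    have h2 := h (n + d)
    rw [← add_assoc]
    omega
  | pred d ih =>
    have h1 := ssum_succ (fun i => f (n + i)) (-d - 1)
    have h2 := h (n + (-d - 1))
    rw [sub_add_cancel] at h1
    rw [add_assoc, sub_add_cancel] at h2
    omega

theorem good_of_rot {γ : ℝ} (hγ : Irrational γ) (x D : ℝ) {A B : ℤ} {q : ℕ} (hA : 1 ≤ A)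
    (hB : 1 ≤ B) (hAq : A ≤ q) (hBq : B ≤ q) {K : ℤ → ℤ} (h0 : K 0 = 0)
    (hK : ∀ n : ℤ, K (n + 1) - K n = if Int.fract (x + n * γ) < D then A else B) :
    ∃ a g, Good K q a g := by
  let G : AddCircle (1 : ℝ) → ℤ := fun s => if rep s < D then A else B
  have hG : ∀ n : ℤ, K (n + 1) - K n = G ((x + n * γ : ℝ)) := fun n => by
    rw [hK]; simp only [G, rep_mk]
  have h1 : ∀ n, K n + 1 ≤ K (n + 1) := fun n => by
    have := hK n; split_ifs at this <;> omega
  have h2 : ∀ n, K (n + 1) ≤ K n + q := fun n => by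
    have := hK n; split_ifs at this <;> omega
  have hloc : ∀ s : AddCircle (1 : ℝ), s ≠ 0 → s ≠ (D : ℝ) → ∀ᶠ t in 𝓝 s, G t = G s := by
    intro s hs hD
    have hc : ContinuousAt rep s :=
      continuous_subtype_val.continuousAt.comp (AddCircle.continuousAt_equivIco 1 0 hs)
    rcases lt_trichotomy (rep s) D with h | h | h
    · filter_upwards [hc.eventually (gt_mem_nhds h)] with t ht
      simp only [G, if_pos h, if_pos ht]
    · exact absurd (by rw [← h, rep_coe]) hD
    · filter_upwards [hc.eventually (lt_mem_nhds h)] with t ht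
      simp only [G, if_neg (not_lt.2 h.le), if_neg (not_lt.2 ht.le)]
  let S : ℤ → AddCircle (1 : ℝ) → ℤ := fun d s => ssum (fun i => G (s + (i * γ : ℝ))) d
  let Z : Set (AddCircle (1 : ℝ)) := Set.range (fun i : ℤ => -((i * γ : ℝ) : AddCircle (1 : ℝ))) ∪
    Set.range (fun i : ℤ => (D : ℝ) - ((i * γ : ℝ) : AddCircle (1 : ℝ)))
  have hZ : Z.Countable := (Set.countable_range _).union (Set.countable_range _)
  have hS : ∀ s ∉ Z, ∀ d, ∀ᶠ t in 𝓝 s, S d t = S d s := by
    intro s hs d
    have key : ∀ i : ℤ, ∀ᶠ t in 𝓝 s, G (t + (i * γ : ℝ)) = G (s + (i * γ : ℝ)) := fun i =>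
      (continuous_add_const _).continuousAt.eventually (hloc (s + (i * γ : ℝ))
        (fun h => hs (Or.inl ⟨i, (eq_neg_of_add_eq_zero_left h).symm⟩))
        (fun h => hs (Or.inr ⟨i, (eq_sub_of_add_eq h).symm⟩)))
    filter_upwards [(eventually_all_finset (Ico 0 d)).2 fun i _ => key i,
      (eventually_all_finset (Ico d 0)).2 fun i _ => key i] with t h3 h4
    simp only [S, ssum]
    rw [sum_congr rfl h3, sum_congr rfl h4]
  have hfr : ∀ E : Set (AddCircle (1 : ℝ)), (∀ s ∉ Z, ∀ᶠ t in 𝓝 s, t ∈ E ↔ s ∈ E) →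
      (frontier E).Countable := by
    intro E hE
    refine hZ.mono fun s hs => ?_
    by_contra h
    by_cases h3 : s ∈ E
    · exact hs.2 (mem_interior_iff_mem_nhds.2 ((hE s h).mono fun t ht => ht.2 h3))
    · rw [← frontier_compl] at hs
      exact hs.2 (mem_interior_iff_mem_nhds.2 ((hE s h).mono fun t ht h4 => h3 (ht.1 h4)))
  let E : ℤ → Set (AddCircle (1 : ℝ)) := fun j => {s | ∃ d ∈ Icc (-|j|) |j|, -S d s = j}
  have hE : ∀ j, (frontier (E j)).Countable := fun j => hfr _ fun s hs => by
    filter_upwards [(eventually_all_finset (Icc (-|j|) |j|)).2 fun d _ => hS s hs d] with t ht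
    exact exists_congr fun d => and_congr_right fun hd => by rw [ht d hd]
  have hKS : ∀ n d : ℤ, K (n + d) - K n = S d ((x + n * γ : ℝ)) := by
    intro n d
    rw [eq_ssum hG]
    simp only [S, ← AddCircle.coe_add]
    congr 1
    ext i
    congr 2
    push_cast
    ring
  have hu : ∀ j n : ℤ, u K j n =
      (E j).indicator (fun _ => (1 : ℝ)) ((x + n * γ : ℝ) : AddCircle (1 : ℝ)) := by
    intro j n
    rw [Set.indicator_apply]
    refine if_congr ⟨?_, ?_⟩ rfl rfl
    · rintro ⟨m, hm⟩
      have h3 := K_abs h1 n m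
      rw [hm, abs_le] at h3
      refine ⟨m - n, mem_Icc.2 (by omega), ?_⟩
      rw [← hKS, add_sub_cancel]
      omega
    · rintro ⟨d, -, hd⟩
      rw [← hKS] at hd
      exact ⟨n + d, by omega⟩
  let W : Set (AddCircle (1 : ℝ)) := {s | rep s < D}
  have hW : (frontier W).Countable := hfr _ fun s hs => by
    have hc : ContinuousAt rep s :=
      continuous_subtype_val.continuousAt.comp (AddCircle.continuousAt_equivIco 1 0
        fun h => hs (Or.inl ⟨0, by simpa using h.symm⟩))
    rcases lt_trichotomy (rep s) D with h | h | h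
    · filter_upwards [hc.eventually (gt_mem_nhds h)] with t ht
      exact iff_of_true ht h
    · exact absurd (Or.inr ⟨0, by rw [← h, rep_coe]; simp⟩) hs
    · filter_upwards [hc.eventually (lt_mem_nhds h)] with t ht
      exact iff_of_false (not_lt.2 ht.le) (not_lt.2 h.le)
  have hGW : ∀ s, (G s : ℝ) = B + (A - B) * W.indicator (fun _ => (1 : ℝ)) s := fun s => by
    simp only [G, W, Set.mem_ofPred_eq, Set.indicator_apply]
    split_ifs <;> ring
  have neg : ∀ n : ℕ, x + ((-(n + 1) : ℤ) : ℝ) * γ = x - γ + n * (-γ) := fun n => by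
    push_cast; ring
  have avg : ∀ (v : ℕ → ℝ) (l : ℝ), Tendsto (fun N : ℕ => (∑ n ∈ range N, v n) / N) atTop (𝓝 l) →
      Tendsto (fun N : ℕ => (∑ n ∈ range N, (B + (A - B) * v n)) / N) atTop
        (𝓝 (B + (A - B) * l)) := by
    intro v l h
    refine ((h.const_mul (A - B : ℝ)).const_add (B : ℝ)).congr' ?_
    filter_upwards [eventually_gt_atTop 0] with N hN
    have : (N : ℝ) ≠ 0 := by positivity
    rw [sum_add_distrib, ← mul_sum, sum_const, card_range, nsmul_eq_mul]
    field_simp
  refine ⟨fun j => volume.real (E j), B + (A - B) * volume.real W, h0, h1, h2, fun j => ?_,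
    fun j => ?_, ?_, ?_⟩
  · simpa only [hu, Int.cast_natCast] using weyl hγ x (hE j)
  · simpa only [hu, neg] using weyl hγ.neg (x - γ) (hE j)
  · refine (avg _ _ (weyl hγ x hW)).congr fun N => ?_
    congr 1
    induction N with
    | zero => simp [h0]
    | succ N ih =>
      have h3 := hG N
      rw [sum_range_succ, ih, ← hGW, Int.cast_natCast] at *
      rw [← h3]
      push_cast
      ring
  · have h3 := avg _ _ (weyl hγ.neg (x - γ) hW)
    have h4 : ∀ N : ℕ, ∑ n ∈ range N, (B + (A - B) * W.indicator (fun _ => (1 : ℝ))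
        ((x - γ + n * (-γ) : ℝ) : AddCircle (1 : ℝ)) : ℝ) = -K (-N) := by
      intro N
      induction N with
      | zero => simp [h0]
      | succ N ih =>
        have h5 := hG (-(N + 1))
        rw [neg, show -((N : ℤ) + 1) + 1 = -N by ring] at h5
        rw [sum_range_succ, ih, ← hGW, ← h5]
        push_cast
        ring
    simp only [h4] at h3
    have h6 : Tendsto (fun N : ℕ => ((K (-N) - K (-(N + 1)) : ℤ) : ℝ) / N) atTop (𝓝 0) := by
      refine squeeze_zero_norm (fun N => ?_) (tendsto_const_div_atTop_nhds_zero_nat (q : ℝ))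
      have h7 := h1 (-(N + 1))
      have h8 := h2 (-(N + 1))
      rw [show -((N : ℤ) + 1) + 1 = -N by ring] at h7 h8
      rw [Real.norm_eq_abs, abs_div, Nat.abs_cast, ← Int.cast_abs, abs_of_nonneg (by omega)]
      gcongr
      exact_mod_cast (show K (-N) - K (-(N + 1)) ≤ q by omega)
    have h9 := h3.add h6
    rw [add_zero] at h9
    refine h9.congr fun N => ?_
    push_cast
    ring

end Pool.Agent.H.MP_23b0f8_an
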